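import Mathlib

/-!
# Every finite group `G` has a finite cover `X → G` which extends to `Aut X → G`

`X` is an extension of `G` by a subgroup of a product of symmetric groups of different degrees,
with parity conditions (a binary code) chosen such that `G` is the automorphism group of the code.
-/

set_option autoImplicit false
set_option linter.unusedSectionVars false

namespace Pool.Agent.Y943.NG

open Equiv

/-- The index set of the blocks. -/
abbrev J (G : Type) : Type := Bool ⊕ G

/-- The product of symmetric groups. -/
abbrev P {G : Type} (n : J G → ℕ) : Type := ∀ j : J G, G → Perm (Fin (n j))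

section

variable {G : Type} [Group G]

/-- `G` permutes the coordinates in each block. -/
def act (n : J G → ℕ) : G →* MulAut (P n) where
  toFun h :=
    { toFun := fun s j g => s j (h⁻¹ * g)
      invFun := fun s j g => s j (h * g)
      left_inv := fun s => by funext j g; simp
      right_inv := fun s => by funext j g; simp
      map_mul' := fun s t => rfl }
  map_one' := by
    refine MulEquiv.ext fun s => ?_
    funext j g
    simp
  map_mul' h h' := by
    refine MulEquiv.ext fun s => ?_
    funext j g
    simp [mul_assoc]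

theorem act_apply (n : J G → ℕ) (h : G) (s : P n) (j : J G) (g : G) :
    act n h s j g = s j (h⁻¹ * g) := rfl

/-- The semidirect product. -/
abbrev W (n : J G → ℕ) : Type := P n ⋊[act n] G

theorem conj_inl (n : J G → ℕ) (x : W n) (u : P n) :
    x * SemidirectProduct.inl u * x⁻¹ =
      SemidirectProduct.inl (x.left * act n x.right u * x.left⁻¹) := by
  ext1
  · simp [SemidirectProduct.mul_left, SemidirectProduct.inv_left]
  · simp

/-- A permutation which is not the identity does not commute with some even permutation. -/
theorem noncomm {m : ℕ} (hm : 5 ≤ m) (t : Perm (Fin m)) (ht : t ≠ 1) :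
    ∃ a ∈ alternatingGroup (Fin m), t * a ≠ a * t := by
  classical
  obtain ⟨x, hx⟩ : ∃ x, t x ≠ x := by
    by_contra h
    push Not at h
    exact ht (Perm.ext h)
  have hc : 1 < (({x, t x} : Finset (Fin m))ᶜ).card := by
    rw [Finset.card_compl, Fintype.card_fin]
    have : ({x, t x} : Finset (Fin m)).card ≤ 2 := Finset.card_le_two
    omega
  obtain ⟨y, hy, z, hz, hyz⟩ := Finset.one_lt_card.1 hc
  simp only [Finset.mem_compl, Finset.mem_insert, Finset.mem_singleton, not_or] at hy hz
  refine ⟨swap (t x) y * swap (t x) z, ?_, fun h => ?_⟩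
  · rw [Perm.mem_alternatingGroup, Perm.sign_mul, Perm.sign_swap (Ne.symm hy.2),
      Perm.sign_swap (Ne.symm hz.2)]
    rfl
  · have h1 := congrArg (fun p : Perm (Fin m) => p x) h
    simp only [Perm.mul_apply] at h1
    rw [swap_apply_of_ne_of_ne (Ne.symm hx) (Ne.symm hz.1),
      swap_apply_of_ne_of_ne (Ne.symm hx) (Ne.symm hy.1), swap_apply_left,
      swap_apply_of_ne_of_ne hz.2 (Ne.symm hyz)] at h1
    exact hz.2 h1.symm

end

section

variable {G : Type} [Group G] [Fintype G]

/-- The parity conditions. -/
def Cond (c : J G → G → ℤˣ) : Prop :=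
  (∀ g, c (.inl false) g = ∏ s, c (.inr s) g) ∧
    ∀ h, c (.inl true) h = ∏ s, c (.inr s) (h * s⁻¹)

theorem Cond.mul {c d : J G → G → ℤˣ} (hc : Cond c) (hd : Cond d) :
    Cond fun j g => c j g * d j g := by
  constructor
  · intro g
    simp only []
    rw [hc.1, hd.1, Finset.prod_mul_distrib]
  · intro g
    simp only []
    rw [hc.2, hd.2, Finset.prod_mul_distrib]

theorem Cond.inv {c : J G → G → ℤˣ} (hc : Cond c) : Cond fun j g => (c j g)⁻¹ := by
  constructor
  · intro g
    simp only []
    rw [hc.1, Finset.prod_inv_distrib]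
  · intro g
    simp only []
    rw [hc.2, Finset.prod_inv_distrib]

theorem Cond.shift {c : J G → G → ℤˣ} (hc : Cond c) (h : G) : Cond fun j g => c j (h * g) := by
  constructor
  · intro g
    exact hc.1 _
  · intro g
    simp only []
    rw [hc.2]
    simp [mul_assoc]

theorem Cond.one : Cond (G := G) fun _ _ => 1 := by
  constructor <;> intro g <;> simp

/-- The group. -/
def X (n : J G → ℕ) : Subgroup (W n) where
  carrier := {x | Cond fun j g => Perm.sign (x.left j g)}
  one_mem' := by
    simpa using Cond.one (G := G)
  mul_mem' := by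
    intro x y hx hy
    have hx' : Cond fun j g => Perm.sign (x.left j g) := hx
    have hy' : Cond fun j g => Perm.sign (y.left j g) := hy
    have h := hx'.mul (hy'.shift (x.right)⁻¹)
    simpa [SemidirectProduct.mul_left, act_apply, Perm.sign_mul] using h
  inv_mem' := by
    intro x hx
    have hx' : Cond fun j g => Perm.sign (x.left j g) := hx
    have h := (hx'.shift x.right).inv
    have h1 : (fun j g => Perm.sign ((x⁻¹ : W n).left j g)) =
        fun j g => (Perm.sign (x.left j (x.right * g)))⁻¹ := by
      funext j g
      rw [SemidirectProduct.inv_left, act_apply, inv_inv, Pi.inv_apply, Pi.inv_apply,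
        Perm.sign_inv, Int.units_inv_eq_self]
    show Cond fun j g => Perm.sign ((x⁻¹ : W n).left j g)
    rw [h1]
    exact h

theorem mem_X (n : J G → ℕ) (x : W n) : x ∈ X n ↔ Cond fun j g => Perm.sign (x.left j g) := Iff.rfl

variable [DecidableEq G]

/-- The embedding of a coordinate. -/
def io (n : J G → ℕ) (j : J G) (g : G) : Perm (Fin (n j)) →* P n :=
  (MonoidHom.mulSingle (fun j : J G => G → Perm (Fin (n j))) j).comp
    (MonoidHom.mulSingle (fun _ : G => Perm (Fin (n j))) g)

theorem io_same (n : J G → ℕ) (j : J G) (g : G) (a : Perm (Fin (n j))) : io n j g a j g = a := by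
  simp [io]

theorem io_ne_left (n : J G → ℕ) (j : J G) (g : G) (a : Perm (Fin (n j))) {j' : J G}
    (h : j' ≠ j) (g' : G) : io n j g a j' g' = 1 := by
  simp [io, Pi.mulSingle_eq_of_ne h]

theorem io_ne_right (n : J G → ℕ) (j : J G) (g : G) (a : Perm (Fin (n j))) {g' : G}
    (h : g' ≠ g) : io n j g a j g' = 1 := by
  simp [io, Pi.mulSingle_eq_of_ne h]

theorem io_ne (n : J G → ℕ) (j : J G) (g : G) (a : Perm (Fin (n j))) {j' : J G} {g' : G}
    (h : ¬ (j' = j ∧ g' = g)) : io n j g a j' g' = 1 := by
  by_cases hj : j' = j
  · subst hj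
    exact io_ne_right n _ g a fun h' => h ⟨rfl, h'⟩
  · exact io_ne_left n j g a hj g'

theorem ext_P {n : J G → ℕ} {s t : P n} (h : ∀ j g, s j g = t j g) : s = t := by
  funext j g
  exact h j g

/-- The alternating group in a coordinate. -/
def F (n : J G → ℕ) (j : J G) (g : G) : alternatingGroup (Fin (n j)) →* X n where
  toFun a := ⟨SemidirectProduct.inl (io n j g a), by
    rw [mem_X]
    have : (fun j' g' => Perm.sign ((SemidirectProduct.inl (io n j g a) : W n).left j' g')) =
        fun _ _ => 1 := by
      funext j' g'
      rw [SemidirectProduct.left_inl]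
      by_cases h : j' = j ∧ g' = g
      · obtain ⟨rfl, rfl⟩ := h
        rw [io_same]
        exact Perm.mem_alternatingGroup.1 a.2
      · rw [io_ne n j g _ h, Perm.sign_one]
    rw [this]
    exact Cond.one⟩
  map_one' := by
    apply Subtype.ext
    simp
  map_mul' a b := by
    apply Subtype.ext
    simp

theorem F_coe (n : J G → ℕ) (j : J G) (g : G) (a : alternatingGroup (Fin (n j))) :
    ((F n j g a : X n) : W n) = SemidirectProduct.inl (io n j g a) := rfl

/-- Conjugate of an even permutation. -/
def cj {m : ℕ} (t : Perm (Fin m)) (a : alternatingGroup (Fin m)) : alternatingGroup (Fin m) :=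
  ⟨t * a * t⁻¹, by
    rw [Perm.mem_alternatingGroup, Perm.sign_mul, Perm.sign_mul, Perm.mem_alternatingGroup.1 a.2,
      Perm.sign_inv]
    simp⟩

/-- The main formula. -/
theorem conj_F (n : J G → ℕ) (x : X n) (j : J G) (g : G) (a : alternatingGroup (Fin (n j))) :
    x * F n j g a * x⁻¹ =
      F n j ((x : W n).right * g) (cj ((x : W n).left j ((x : W n).right * g)) a) := by
  apply Subtype.ext
  rw [Subgroup.coe_mul, Subgroup.coe_mul, Subgroup.coe_inv, F_coe, F_coe, conj_inl]
  congr 1
  refine ext_P fun j' g' => ?_
  simp only [Pi.mul_apply, Pi.inv_apply, act_apply]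
  by_cases h : j' = j ∧ g' = (x : W n).right * g
  · obtain ⟨rfl, rfl⟩ := h
    rw [io_same]
    have : ((x : W n).right)⁻¹ * ((x : W n).right * g) = g := by group
    rw [this, io_same]
    rfl
  · rw [io_ne n _ _ _ h, io_ne]
    · simp
    · rintro ⟨h1, h2⟩
      exact h ⟨h1, by rw [← h2]; group⟩

theorem F_inj (n : J G → ℕ) (j : J G) (g : G) : Function.Injective (F n j g) := by
  intro a b h
  have h1 := congrArg (fun x : X n => (x : W n).left j g) h
  simp only [F_coe, SemidirectProduct.left_inl, io_same] at h1
  exact Subtype.ext h1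

end

end Pool.Agent.Y943.NG
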