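import Pool.Agent.Y943.NG.Cov

/-! # Automorphisms of the group `X` permute the alternating factors -/

set_option autoImplicit false
set_option linter.unusedSectionVars false

namespace Pool.Agent.Y943.NG

open Equiv

variable {G : Type} [Group G] [Fintype G] [DecidableEq G] {n : J G → ℕ}

/-- The factor with index `(j, g)`. -/
def AA (n : J G → ℕ) (j : J G) (g : G) : Subgroup (X n) := (F n j g).range

theorem mem_AA {j : J G} {g : G} {x : X n} : x ∈ AA n j g ↔ ∃ a, F n j g a = x := Iff.rfl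

/-- The product of all factors. -/
def EV (n : J G → ℕ) : Subgroup (X n) where
  carrier := {x | (x : W n).right = 1 ∧ ∀ j g, Perm.sign ((x : W n).left j g) = 1}
  one_mem' := by
    refine ⟨rfl, fun j g => ?_⟩
    simp
  mul_mem' := by
    rintro x y ⟨h1, h2⟩ ⟨h3, h4⟩
    refine ⟨by simp [h1, h3], fun j g => ?_⟩
    simp [SemidirectProduct.mul_left, h1, h2, h4]
  inv_mem' := by
    rintro x ⟨h1, h2⟩
    refine ⟨by simp [h1], fun j g => ?_⟩
    simp [SemidirectProduct.inv_left, h1, h2]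

theorem mem_EV {x : X n} : x ∈ EV n ↔
    (x : W n).right = 1 ∧ ∀ j g, Perm.sign ((x : W n).left j g) = 1 := Iff.rfl

instance : (EV n).Normal := by
  constructor
  intro x hx y
  rw [mem_EV] at hx ⊢
  refine ⟨by simp [hx.1], fun j g => ?_⟩
  have h1 : ((y * x * y⁻¹ : X n) : W n) =
      SemidirectProduct.inl ((y : W n).left * act n (y : W n).right (x : W n).left *
        (y : W n).left⁻¹) := by
    have h2 : (x : W n) = SemidirectProduct.inl (x : W n).left := by
      ext1
      · simp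
      · simp [hx.1]
    rw [Subgroup.coe_mul, Subgroup.coe_mul, Subgroup.coe_inv, h2, conj_inl]
    simp
  rw [h1, SemidirectProduct.left_inl]
  simp only [Pi.mul_apply, Pi.inv_apply, act_apply, Perm.sign_mul, Perm.sign_inv, hx.2, mul_one]
  exact Int.units_mul_self _

theorem F_mem_EV (j : J G) (g : G) (a : alternatingGroup (Fin (n j))) : F n j g a ∈ EV n := by
  rw [mem_EV]
  refine ⟨rfl, fun j' g' => ?_⟩
  rw [F_coe, SemidirectProduct.left_inl]
  by_cases h : j' = j ∧ g' = g
  · obtain ⟨rfl, rfl⟩ := h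
    rw [io_same]
    exact Perm.mem_alternatingGroup.1 a.2
  · rw [io_ne n j g _ h, Perm.sign_one]

theorem conj_F1 (x : X n) (hx : (x : W n).right = 1) (j : J G) (g : G)
    (a : alternatingGroup (Fin (n j))) :
    x * F n j g a * x⁻¹ = F n j g (cj ((x : W n).left j g) a) := by
  have h := conj_F n x j g a
  rw [hx, one_mul] at h
  exact h

theorem cj_one {m : ℕ} (a : alternatingGroup (Fin m)) : cj 1 a = a := by
  apply Subtype.ext
  simp [cj]

theorem exists_comm (hn : ∀ j, 5 ≤ n j) (x : X n) (hx : (x : W n).right = 1) (j : J G) (g : G)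
    (h : (x : W n).left j g ≠ 1) : ∃ a b : alternatingGroup (Fin (n j)), b ≠ 1 ∧
      x * F n j g a * x⁻¹ * (F n j g a)⁻¹ = F n j g b := by
  obtain ⟨a, ha, hne⟩ := noncomm (hn j) _ h
  refine ⟨⟨a, ha⟩, cj ((x : W n).left j g) ⟨a, ha⟩ * ⟨a, ha⟩⁻¹, fun h1 => hne ?_, ?_⟩
  · have h2 := mul_inv_eq_one.1 h1
    have h3 := congrArg Subtype.val h2
    simp only [cj] at h3
    rwa [mul_inv_eq_iff_eq_mul] at h3
  · rw [conj_F1 x hx, map_mul, map_inv]

theorem AA_le_of_comap (hn : ∀ j, 5 ≤ n j) (j : J G) (g : G) (N : Subgroup (X n))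
    (hnor : (N.comap (F n j g)).Normal) (b : alternatingGroup (Fin (n j))) (hb : b ≠ 1)
    (hbN : F n j g b ∈ N) : AA n j g ≤ N := by
  have : IsSimpleGroup (alternatingGroup (Fin (n j))) :=
    alternatingGroup.isSimpleGroup (by simpa using hn j)
  have h := IsSimpleGroup.eq_bot_or_eq_top_of_normal _ hnor
  rcases h with h | h
  · exfalso
    apply hb
    rw [← Subgroup.mem_bot, ← h]
    exact hbN
  · rintro _ ⟨a, rfl⟩
    have : a ∈ N.comap (F n j g) := by rw [h]; trivial
    exact this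

theorem AA_le (hn : ∀ j, 5 ≤ n j) (N : Subgroup (X n)) [hN : N.Normal] (x : X n) (hxN : x ∈ N)
    (hx : (x : W n).right = 1) (j : J G) (g : G) (h : (x : W n).left j g ≠ 1) :
    AA n j g ≤ N := by
  obtain ⟨a, b, hb, hab⟩ := exists_comm hn x hx j g h
  refine AA_le_of_comap hn j g N (hN.comap _) b hb ?_
  rw [← hab, mul_assoc, mul_assoc]
  refine N.mul_mem hxN ?_
  rw [← mul_assoc]
  exact hN.conj_mem _ (N.inv_mem hxN) _

/-- The element of `X` acting as `h`. -/
def tr (n : J G → ℕ) (h : G) : X n := ⟨⟨1, h⟩, by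
  rw [mem_X]
  simpa using Cond.one (G := G)⟩

theorem AA_shift (N : Subgroup (X n)) [hN : N.Normal] (j : J G) (g g' : G)
    (h : AA n j g ≤ N) : AA n j g' ≤ N := by
  rintro _ ⟨a, rfl⟩
  have h1 := conj_F n (tr n (g' * g⁻¹)) j g a
  have h2 : ((tr n (g' * g⁻¹) : X n) : W n).right * g = g' := by
    show g' * g⁻¹ * g = g'
    group
  have h3 : ((tr n (g' * g⁻¹) : X n) : W n).left j (((tr n (g' * g⁻¹) : X n) : W n).right * g) =
    1 := rfl
  rw [h3, cj_one, h2] at h1
  rw [← h1]
  exact hN.conj_mem _ (h ⟨a, rfl⟩) _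

theorem dichotomy (hn : ∀ j, 5 ≤ n j) (N : Subgroup (X n)) [hN : N.Normal] (j : J G) :
    (∀ g, AA n j g ≤ N) ∨ (∀ g a, ∀ x ∈ N, x * F n j g a = F n j g a * x) := by
  by_contra hcon
  rw [not_or] at hcon
  obtain ⟨h1, h2⟩ := hcon
  push Not at h2
  obtain ⟨g, a, x, hx, hne⟩ := h2
  apply h1
  set y := x * F n j g a * x⁻¹ * (F n j g a)⁻¹ with hy
  have hyN : y ∈ N := by
    rw [hy, mul_assoc, mul_assoc]
    refine N.mul_mem hx ?_
    rw [← mul_assoc]
    exact hN.conj_mem _ (N.inv_mem hx) _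
  have hy1 : y ≠ 1 := by
    intro h
    rw [hy, mul_inv_eq_one, mul_inv_eq_iff_eq_mul] at h
    exact hne h
  have hyr : (y : W n).right = 1 := by
    rw [hy]
    simp [F_coe]
  have hyl : ∀ j' g', j' ≠ j → (y : W n).left j' g' = 1 := by
    intro j' g' hj
    rw [hy, conj_F]
    rw [Subgroup.coe_mul, Subgroup.coe_inv, F_coe, F_coe, ← map_inv, ← map_mul,
      SemidirectProduct.left_inl]
    simp only [Pi.mul_apply, Pi.inv_apply]
    rw [io_ne_left n j _ _ hj, io_ne_left n j _ _ hj]
    simp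
  obtain ⟨g', hg'⟩ : ∃ g', (y : W n).left j g' ≠ 1 := by
    by_contra hc
    push Not at hc
    apply hy1
    apply Subtype.ext
    ext1
    · funext j' g'
      by_cases hj : j' = j
      · subst hj
        simpa using hc g'
      · simpa using hyl j' g' hj
    · exact hyr
  intro g''
  exact AA_shift N j g' g'' (AA_le hn N y hyN hyr j g' hg')

theorem exists_ne {m : ℕ} (hm : 5 ≤ m) : ∃ a : alternatingGroup (Fin m), a ≠ 1 := by
  have : IsSimpleGroup (alternatingGroup (Fin m)) :=
    alternatingGroup.isSimpleGroup (by simpa using hm)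
  exact _root_.exists_ne 1

theorem eq_one_of_comm (hn : ∀ j, 5 ≤ n j) (x : X n)
    (h : ∀ j g a, x * F n j g a = F n j g a * x) : x = 1 := by
  have h1 : ∀ j g a, F n j g a =
      F n j ((x : W n).right * g) (cj ((x : W n).left j ((x : W n).right * g)) a) := by
    intro j g a
    rw [← conj_F, h, mul_inv_cancel_right]
  have hr : (x : W n).right = 1 := by
    by_contra hne
    obtain ⟨a, ha⟩ := exists_ne (hn (.inl false))
    have h2 := congrArg (fun y : X n => (y : W n).left (.inl false) 1) (h1 (.inl false) 1 a)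
    simp only [F_coe, SemidirectProduct.left_inl] at h2
    rw [io_same, io_ne_right] at h2
    · exact ha (Subtype.ext h2)
    · intro h3
      apply hne
      simpa using h3.symm
  apply Subtype.ext
  ext1
  · funext j g
    by_contra hne
    obtain ⟨a, ha, hne'⟩ := noncomm (hn j) _ (by simpa using hne)
    apply hne'
    have h2 := congrArg (fun y : X n => (y : W n).left j g) (h1 j g ⟨a, ha⟩)
    simp only [F_coe, SemidirectProduct.left_inl, hr, one_mul] at h2
    rw [io_same, io_same] at h2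
    simp only [cj] at h2
    rw [eq_mul_inv_iff_mul_eq] at h2
    exact h2.symm
  · exact hr

theorem AA_le_map (hn : ∀ j, 5 ≤ n j) (φ : X n ≃* X n) (j : J G) (g : G) :
    AA n j g ≤ (EV n).map φ.toMonoidHom := by
  have hnor : ((EV n).map φ.toMonoidHom).Normal :=
    Subgroup.Normal.map inferInstance _ φ.surjective
  rcases dichotomy hn ((EV n).map φ.toMonoidHom) j with h | h
  · exact h g
  · exfalso
    obtain ⟨a, ha⟩ := exists_ne (hn j)
    have h1 : φ.symm (F n j g a) = 1 := by
      apply eq_one_of_comm hn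
      intro j' g' b
      apply φ.injective
      rw [map_mul, map_mul, MulEquiv.apply_symm_apply]
      exact (h g a _ ⟨F n j' g' b, F_mem_EV j' g' b, rfl⟩).symm
    apply ha
    apply F_inj n j g
    rw [map_one]
    simpa using h1

theorem map_AA_le (hn : ∀ j, 5 ≤ n j) (φ : X n ≃* X n) (j : J G) (g : G)
    (a : alternatingGroup (Fin (n j))) : φ (F n j g a) ∈ EV n := by
  obtain ⟨e, he, h⟩ := AA_le_map hn φ.symm j g ⟨a, rfl⟩
  have h1 : φ.symm e = F n j g a := h
  rw [← h1, MulEquiv.apply_symm_apply]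
  exact he

theorem exists_map (hn : ∀ j, 5 ≤ n j) (φ : X n ≃* X n) (j : J G) (g : G) :
    ∃ j' g', (AA n j g).map φ.toMonoidHom = AA n j' g' := by
  obtain ⟨a, ha⟩ := exists_ne (hn j)
  set y := φ (F n j g a) with hy
  have hyE : y ∈ EV n := map_AA_le hn φ j g a
  have hy1 : y ≠ 1 := by
    intro h
    apply ha
    apply F_inj n j g
    rw [map_one]
    apply φ.injective
    rw [map_one]
    exact h
  obtain ⟨j', g', hne⟩ : ∃ j' g', (y : W n).left j' g' ≠ 1 := by
    by_contra hc
    push Not at hc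
    apply hy1
    apply Subtype.ext
    ext1
    · funext j' g'
      simpa using hc j' g'
    · exact hyE.1
  obtain ⟨c, b, hb, hcb⟩ := exists_comm hn y hyE.1 j' g' hne
  obtain ⟨e, he, hec⟩ := AA_le_map hn φ j' g' ⟨c, rfl⟩
  have hec' : φ e = F n j' g' c := hec
  -- elements of `EV` normalise the factors
  have hnorm : ∀ (j : J G) (g : G) (e : X n), e ∈ EV n → ∀ z ∈ AA n j g, e * z * e⁻¹ ∈ AA n j g := by
    rintro j g e he _ ⟨a, rfl⟩
    rw [conj_F1 e he.1]
    exact ⟨_, rfl⟩
  have hbY : ∃ k, φ (F n j g k) = F n j' g' b := by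
    have h1 : F n j' g' b = φ (F n j g a * (e * (F n j g a)⁻¹ * e⁻¹)) := by
      rw [← hcb, ← hec', hy]
      simp only [map_mul, map_inv, mul_assoc]
    have h2 : F n j g a * (e * (F n j g a)⁻¹ * e⁻¹) ∈ AA n j g :=
      (AA n j g).mul_mem ⟨a, rfl⟩ (hnorm j g e he _ ((AA n j g).inv_mem ⟨a, rfl⟩))
    obtain ⟨k, hk⟩ := h2
    exact ⟨k, by rw [hk, h1]⟩
  obtain ⟨k, hk⟩ := hbY
  refine ⟨j', g', le_antisymm ?_ ?_⟩
  · -- `Y ≤ AA j' g'`
    have hsub : AA n j g ≤ (AA n j' g').comap φ.toMonoidHom := by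
      refine AA_le_of_comap hn j g _ ?_ k ?_ ?_
      · constructor
        intro z hz w
        have hz' : φ (F n j g z) ∈ AA n j' g' := hz
        show φ (F n j g (w * z * w⁻¹)) ∈ AA n j' g'
        rw [map_mul, map_mul, map_mul, map_mul, map_inv, map_inv]
        exact hnorm j' g' _ (map_AA_le hn φ j g w) _ hz'
      · rintro rfl
        rw [map_one, map_one] at hk
        apply hb
        apply F_inj n j' g'
        rw [← hk, map_one]
      · show φ (F n j g k) ∈ AA n j' g'
        rw [hk]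
        exact ⟨b, rfl⟩
    exact Subgroup.map_le_iff_le_comap.2 hsub
  · refine AA_le_of_comap hn j' g' _ ?_ b hb ⟨F n j g k, ⟨k, rfl⟩, hk⟩
    constructor
    intro z hz w
    obtain ⟨u, ⟨u', hu'⟩, hu⟩ := hz
    obtain ⟨v, hv, hvw⟩ := AA_le_map hn φ j' g' ⟨w, rfl⟩
    refine ⟨v * u * v⁻¹, hnorm j g v hv _ ⟨u', hu'⟩, ?_⟩
    show φ (v * u * v⁻¹) = F n j' g' (w * z * w⁻¹)
    have hu2 : φ u = F n j' g' z := hu
    have hv2 : φ v = F n j' g' w := hvw
    rw [map_mul, map_mul, map_inv, hu2, hv2, map_mul, map_mul, map_inv]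

theorem card_AA (j : J G) (g : G) : Nat.card (AA n j g) = Nat.card (alternatingGroup (Fin (n j))) :=
  Nat.card_congr ((F n j g).ofInjective (F_inj n j g)).toEquiv.symm

theorem AA_inj (hn : ∀ j, 5 ≤ n j) {j : J G} {g g' : G} (h : AA n j g = AA n j g') : g = g' := by
  obtain ⟨a, ha⟩ := exists_ne (hn j)
  have h1 : F n j g a ∈ AA n j g' := by rw [← h]; exact ⟨a, rfl⟩
  obtain ⟨b, hb⟩ := h1
  by_contra hne
  have h2 := congrArg (fun y : X n => (y : W n).left j g) hb
  simp only [F_coe, SemidirectProduct.left_inl] at h2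
  rw [io_same, io_ne_right n j g' _ hne] at h2
  exact ha (Subtype.ext h2.symm)

theorem fact_inj {a b : ℕ} (ha : 5 ≤ a) (hb : 5 ≤ b) (h : a.factorial = b.factorial) : a = b := by
  rcases lt_trichotomy a b with h1 | h1 | h1
  · exact absurd h (Nat.factorial_lt_of_lt (by omega) h1).ne
  · exact h1
  · exact absurd h.symm (Nat.factorial_lt_of_lt (by omega) h1).ne

theorem exists_map' (hn : ∀ j, 5 ≤ n j) (hinj : Function.Injective n) (φ : X n ≃* X n) (j : J G)
    (g : G) : ∃ g', (AA n j g).map φ.toMonoidHom = AA n j g' := by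
  obtain ⟨j', g', h⟩ := exists_map hn φ j g
  have h1 : Nat.card (AA n j g) = Nat.card (AA n j' g') := by
    rw [← h]
    exact Nat.card_congr ((AA n j g).equivMapOfInjective _ φ.injective).toEquiv
  rw [card_AA, card_AA] at h1
  have h2 : ∀ m : ℕ, 5 ≤ m → 2 * Nat.card (alternatingGroup (Fin m)) = m.factorial := by
    intro m hm
    have : Nontrivial (Fin m) := Fin.nontrivial_iff_two_le.2 (by omega)
    rw [two_mul_nat_card_alternatingGroup, Nat.card_perm, Nat.card_eq_fintype_card,
      Fintype.card_fin]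
  have h3 : n j = n j' := fact_inj (hn j) (hn j') (by rw [← h2 _ (hn j), ← h2 _ (hn j'), h1])
  obtain rfl := hinj h3
  exact ⟨g', h⟩

end Pool.Agent.Y943.NG
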