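import Pool.Agent.Y943.NG.Cov2

/-! # The homomorphism `Aut X → G` -/

set_option autoImplicit false
set_option linter.unusedSectionVars false

namespace Pool.Agent.Y943.NG

open Equiv

variable {G : Type} [Group G] [Fintype G] [DecidableEq G] {n : J G → ℕ}

/-- `φ` maps the factor `(j, g)` to the factor `(j, g')`. -/
def Mp (φ : X n ≃* X n) (j : J G) (g g' : G) : Prop := (AA n j g).map φ.toMonoidHom = AA n j g'

theorem Mp.elem {φ : X n ≃* X n} {j : J G} {g g' : G} (h : Mp φ j g g')
    (a : alternatingGroup (Fin (n j))) : ∃ b, φ (F n j g a) = F n j g' b := by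
  have h1 : φ (F n j g a) ∈ AA n j g' := by
    rw [← show (AA n j g).map φ.toMonoidHom = AA n j g' from h]
    exact ⟨F n j g a, ⟨a, rfl⟩, rfl⟩
  obtain ⟨b, hb⟩ := h1
  exact ⟨b, hb.symm⟩

theorem Mp.elem' {φ : X n ≃* X n} {j : J G} {g g' : G} (h : Mp φ j g g')
    (b : alternatingGroup (Fin (n j))) : ∃ a, φ (F n j g a) = F n j g' b := by
  have h1 : F n j g' b ∈ (AA n j g).map φ.toMonoidHom := by
    rw [show (AA n j g).map φ.toMonoidHom = AA n j g' from h]
    exact ⟨b, rfl⟩
  obtain ⟨_, ⟨a, rfl⟩, hb⟩ := h1
  exact ⟨a, hb⟩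

theorem Mp.symm {φ : X n ≃* X n} {j : J G} {g g' : G} (h : Mp φ j g g') : Mp φ.symm j g' g := by
  unfold Mp at h ⊢
  have h1 : φ.symm.toMonoidHom.comp φ.toMonoidHom = MonoidHom.id _ :=
    MonoidHom.ext fun x => φ.symm_apply_apply x
  rw [← h, Subgroup.map_map, h1, Subgroup.map_id]

theorem Mp.comp {φ ψ : X n ≃* X n} {j : J G} {g g' g'' : G} (h : Mp φ j g g') (h' : Mp ψ j g' g'') :
    Mp (φ.trans ψ) j g g'' := by
  unfold Mp at h h' ⊢
  rw [← h', ← h, Subgroup.map_map]
  rfl

theorem right_map (hn : ∀ j, 5 ≤ n j) (φ : X n ≃* X n) {j : J G} {g g' : G} (h : Mp φ j g g')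
    (x : X n) (hx : (x : W n).right = 1) : ((φ x : X n) : W n).right = 1 := by
  obtain ⟨b, hb⟩ := exists_ne (hn j)
  obtain ⟨a, ha⟩ := h.elem' b
  have h1 : φ (x * F n j g a * x⁻¹) = φ x * F n j g' b * (φ x)⁻¹ := by
    rw [map_mul, map_mul, map_inv, ha]
  rw [conj_F1 x hx] at h1
  obtain ⟨c, hc⟩ := h.elem (cj ((x : W n).left j g) a)
  rw [hc, conj_F] at h1
  by_contra hne
  have h2 := congrArg (fun y : X n => (y : W n).left j (((φ x : X n) : W n).right * g')) h1
  simp only [F_coe, SemidirectProduct.left_inl] at h2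
  rw [io_same, io_ne_right] at h2
  · apply hb
    have h3 := h2.symm
    simp only [cj] at h3
    apply Subtype.ext
    rw [mul_inv_eq_one] at h3
    simpa using h3
  · intro h3
    apply hne
    simpa using h3

theorem sign_iff (hn : ∀ j, 5 ≤ n j) (x : X n) (hx : (x : W n).right = 1) (j : J G) (g : G) :
    Perm.sign ((x : W n).left j g) = 1 ↔
      ∃ a, ∀ b, x * (F n j g a)⁻¹ * F n j g b = F n j g b * (x * (F n j g a)⁻¹) := by
  constructor
  · intro h
    refine ⟨⟨(x : W n).left j g, Perm.mem_alternatingGroup.2 h⟩, fun b => ?_⟩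
    set y := x * (F n j g ⟨(x : W n).left j g, Perm.mem_alternatingGroup.2 h⟩)⁻¹ with hy
    have hyr : (y : W n).right = 1 := by
      rw [hy]
      simp [F_coe, hx]
    have hyl : (y : W n).left j g = 1 := by
      rw [hy, Subgroup.coe_mul, Subgroup.coe_inv, F_coe, ← map_inv, SemidirectProduct.mul_left,
        hx]
      simp only [SemidirectProduct.left_inl, Pi.mul_apply, act_apply, inv_one, one_mul,
        Pi.inv_apply]
      rw [io_same]
      simp
    have h1 := conj_F1 y hyr j g b
    rw [hyl, cj_one, mul_inv_eq_iff_eq_mul] at h1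
    exact h1
  · rintro ⟨a, ha⟩
    set y := x * (F n j g a)⁻¹ with hy
    have hyr : (y : W n).right = 1 := by
      rw [hy]
      simp [F_coe, hx]
    have hyl : (y : W n).left j g = (x : W n).left j g * (a : Perm (Fin (n j)))⁻¹ := by
      rw [hy, Subgroup.coe_mul, Subgroup.coe_inv, F_coe, ← map_inv, SemidirectProduct.mul_left,
        hx]
      simp only [SemidirectProduct.left_inl, Pi.mul_apply, act_apply, inv_one, one_mul,
        Pi.inv_apply]
      rw [io_same]
    have h1 : (y : W n).left j g = 1 := by
      by_contra hne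
      obtain ⟨b, hb, hne'⟩ := noncomm (hn j) _ hne
      apply hne'
      have h2 := conj_F1 y hyr j g ⟨b, hb⟩
      rw [ha, mul_inv_cancel_right] at h2
      have h3 := F_inj n j g h2
      have h4 := congrArg Subtype.val h3
      simp only [cj] at h4
      rw [eq_mul_inv_iff_mul_eq] at h4
      exact h4.symm
    rw [hyl, mul_inv_eq_one] at h1
    rw [h1]
    exact Perm.mem_alternatingGroup.1 a.2

theorem sign_fw (hn : ∀ j, 5 ≤ n j) (φ : X n ≃* X n) {j : J G} {g g' : G} (h : Mp φ j g g')
    (x : X n) (hx : (x : W n).right = 1) (hs : Perm.sign ((x : W n).left j g) = 1) :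
    Perm.sign (((φ x : X n) : W n).left j g') = 1 := by
  rw [sign_iff hn _ (right_map hn φ h x hx)]
  rw [sign_iff hn x hx] at hs
  obtain ⟨a, ha⟩ := hs
  obtain ⟨a', ha'⟩ := h.elem a
  refine ⟨a', fun b' => ?_⟩
  obtain ⟨b, hb⟩ := h.elem' b'
  rw [← ha', ← hb, ← map_inv, ← map_mul, ← map_mul, ha b, map_mul]

theorem sign_map (hn : ∀ j, 5 ≤ n j) (φ : X n ≃* X n) {j : J G} {g g' : G} (h : Mp φ j g g')
    (x : X n) (hx : (x : W n).right = 1) :
    Perm.sign (((φ x : X n) : W n).left j g') = Perm.sign ((x : W n).left j g) := by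
  have h1 : Perm.sign (((φ x : X n) : W n).left j g') = 1 ↔
      Perm.sign ((x : W n).left j g) = 1 := by
    constructor
    · intro h2
      have h3 := sign_fw hn φ.symm h.symm (φ x) (right_map hn φ h x hx) h2
      rwa [MulEquiv.symm_apply_apply] at h3
    · exact sign_fw hn φ h x hx
  rcases Int.units_eq_one_or (Perm.sign ((x : W n).left j g)) with h2 | h2
  · rw [h2, h1]
    exact h2
  · rcases Int.units_eq_one_or (Perm.sign (((φ x : X n) : W n).left j g')) with h3 | h3
    · rw [h1, h2] at h3
      exact absurd h3 (by decide)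
    · rw [h2, h3]

/-- The basic code words. -/
def yc (g s : G) : J G → G → ℤˣ
  | .inl false, k => if k = g then -1 else 1
  | .inl true, k => if k = g * s then -1 else 1
  | .inr s', k => if s' = s ∧ k = g then -1 else 1

theorem prod_ite_and (s : G) (p : G → Prop) [DecidablePred p] :
    (∏ s' : G, if s' = s ∧ p s' then (-1 : ℤˣ) else 1) = if p s then -1 else 1 := by
  rw [Finset.prod_eq_single s]
  · simp
  · intro b _ hb
    simp [hb]
  · intro h
    exact absurd (Finset.mem_univ s) h

theorem cond_yc (g s : G) : Cond (yc g s) := by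
  constructor
  · intro k
    show (if k = g then (-1 : ℤˣ) else 1) = ∏ s' : G, if s' = s ∧ k = g then (-1 : ℤˣ) else 1
    rw [prod_ite_and s fun _ => k = g]
  · intro k
    show (if k = g * s then (-1 : ℤˣ) else 1) =
      ∏ s' : G, if s' = s ∧ k * s'⁻¹ = g then (-1 : ℤˣ) else 1
    rw [prod_ite_and s fun s' => k * s'⁻¹ = g]
    simp only [mul_inv_eq_iff_eq_mul]

/-- A permutation with given sign. -/
def sg {m : ℕ} (hm : 5 ≤ m) (e : ℤˣ) : Perm (Fin m) :=
  if e = 1 then 1 else swap ⟨0, by omega⟩ ⟨1, by omega⟩

theorem sign_sg {m : ℕ} (hm : 5 ≤ m) (e : ℤˣ) : Perm.sign (sg hm e) = e := by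
  unfold sg
  split_ifs with h
  · rw [h, Perm.sign_one]
  · rw [Perm.sign_swap (by simp)]
    rcases Int.units_eq_one_or e with h1 | h1
    · exact absurd h1 h
    · exact h1.symm

theorem exists_word (hn : ∀ j, 5 ≤ n j) (g s : G) : ∃ x : X n, (x : W n).right = 1 ∧
    ∀ j k, Perm.sign ((x : W n).left j k) = yc g s j k := by
  refine ⟨⟨SemidirectProduct.inl fun j k => sg (hn j) (yc g s j k), ?_⟩, rfl, fun j k => ?_⟩
  · rw [mem_X]
    simp only [SemidirectProduct.left_inl, sign_sg]
    exact cond_yc g s
  · exact sign_sg (hn j) _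

/-- The automorphisms of `X` act on the factors by left multiplications with elements of `G`. -/
theorem rigid (hn : ∀ j, 5 ≤ n j) (hinj : Function.Injective n) (φ : X n ≃* X n) :
    ∃ a : G, ∀ k, Mp φ (.inl false) k (a * k) := by
  have hex : ∀ j g, ∃ g', Mp φ j g g' := fun j g => exists_map' hn hinj φ j g
  choose π hπ using hex
  have hsur : ∀ j, Function.Bijective (π j) := by
    intro j
    refine (Finite.injective_iff_bijective).1 fun g g' h => ?_
    have h1 := (hπ j g).symm
    have h2 := (hπ j g').symm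
    rw [h] at h1
    unfold Mp at h1 h2
    exact AA_inj hn (Eq.trans (Eq.symm h1) h2)
  have key : ∀ g s, π (.inl false) g = π (.inr s) g ∧ π (.inl true) (g * s) = π (.inr s) g * s := by
    intro g s
    obtain ⟨x, hx, hxs⟩ := exists_word hn g s
    have hz : Cond fun j k => Perm.sign (((φ x : X n) : W n).left j k) := (φ x).2
    set c : J G → G → ℤˣ := fun j k => Perm.sign (((φ x : X n) : W n).left j k) with hc
    have hcπ : ∀ j k, c j (π j k) = yc g s j k := by
      intro j k
      rw [hc, ← hxs j k]
      exact sign_map hn φ (hπ j k) x hx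
    have hr : ∀ s' m, c (.inr s') m = if s' = s ∧ m = π (.inr s) g then -1 else 1 := by
      intro s' m
      obtain ⟨k, rfl⟩ := (hsur (.inr s')).2 m
      rw [hcπ]
      show (if s' = s ∧ k = g then (-1 : ℤˣ) else 1) = _
      by_cases hs : s' = s
      · subst hs
        by_cases hk : k = g
        · simp [hk]
        · have : π (.inr s') k ≠ π (.inr s') g := fun h => hk ((hsur _).1 h)
          simp [hk, this]
      · simp [hs]
    have h0 : ∀ m, c (.inl false) m = if m = π (.inr s) g then -1 else 1 := by
      intro m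
      rw [hz.1 m]
      simp only [hr]
      rw [prod_ite_and s fun _ => m = π (.inr s) g]
    have h1 : ∀ m, c (.inl true) m = if m * s⁻¹ = π (.inr s) g then -1 else 1 := by
      intro m
      rw [hz.2 m]
      simp only [hr]
      rw [prod_ite_and s fun s' => m * s'⁻¹ = π (.inr s) g]
    constructor
    · have h2 := hcπ (.inl false) g
      rw [h0] at h2
      have h3 : yc g s (.inl false) g = -1 := by simp [yc]
      rw [h3] at h2
      by_contra hne
      rw [if_neg hne] at h2
      exact absurd h2 (by decide)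
    · have h2 := hcπ (.inl true) (g * s)
      rw [h1] at h2
      have h3 : yc g s (.inl true) (g * s) = -1 := by simp [yc]
      rw [h3] at h2
      by_contra hne
      rw [if_neg (fun h => hne (mul_inv_eq_iff_eq_mul.1 h))] at h2
      exact absurd h2 (by decide)
  refine ⟨π (.inl false) 1, fun k => ?_⟩
  have h1 : π (.inl false) k = π (.inl true) k := by
    have h2 := key k 1
    rw [mul_one, mul_one] at h2
    rw [h2.1, h2.2]
  have h2 := key 1 k
  rw [one_mul] at h2
  have h3 : π (.inl false) k = π (.inl false) 1 * k := by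
    rw [h1, h2.2, h2.1]
  rw [← h3]
  exact hπ _ k

/-- The homomorphism `Aut X → G`. -/
noncomputable def rho (hn : ∀ j, 5 ≤ n j) (hinj : Function.Injective n) : MulAut (X n) →* G where
  toFun φ := (rigid hn hinj φ).choose
  map_one' := by
    have h := (rigid hn hinj (1 : MulAut (X n))).choose_spec 1
    set a := (rigid hn hinj (1 : MulAut (X n))).choose
    have h1 : AA n (.inl false) (a * 1) = AA n (.inl false) 1 := by
      rw [← show (AA n (.inl false) 1).map (1 : MulAut (X n)).toMonoidHom =
        AA n (.inl false) (a * 1) from h]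
      exact Subgroup.map_id _
    simpa using AA_inj hn h1
  map_mul' φ ψ := by
    have h1 := (rigid hn hinj φ).choose_spec
    have h2 := (rigid hn hinj ψ).choose_spec
    have h3 := (rigid hn hinj (φ * ψ)).choose_spec 1
    set a := (rigid hn hinj φ).choose
    set b := (rigid hn hinj ψ).choose
    set c := (rigid hn hinj (φ * ψ)).choose
    have h4 : Mp (φ * ψ) (.inl false) 1 (a * (b * 1)) := (h2 1).comp (h1 _)
    have h5 : AA n (.inl false) (c * 1) = AA n (.inl false) (a * (b * 1)) := by
      rw [← show (AA n (.inl false) 1).map (φ * ψ : MulAut (X n)).toMonoidHom =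
        AA n (.inl false) (c * 1) from h3]
      exact h4
    simpa using AA_inj hn h5

theorem rho_spec (hn : ∀ j, 5 ≤ n j) (hinj : Function.Injective n) (φ : MulAut (X n)) (a : G)
    (h : Mp φ (.inl false) 1 a) : rho hn hinj φ = a := by
  have h3 := (rigid hn hinj φ).choose_spec 1
  have h5 : AA n (.inl false) ((rigid hn hinj φ).choose * 1) = AA n (.inl false) a := by
    rw [← show (AA n (.inl false) 1).map (φ : MulAut (X n)).toMonoidHom =
        AA n (.inl false) ((rigid hn hinj φ).choose * 1) from h3]
    exact h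
  have h6 := AA_inj hn h5
  rw [mul_one] at h6
  exact h6

theorem rho_conj (hn : ∀ j, 5 ≤ n j) (hinj : Function.Injective n) (h : G) :
    rho hn hinj (MulAut.conj (tr n h)) = h := by
  apply rho_spec
  have h1 : ∀ a, tr n h * F n (.inl false) 1 a * (tr n h)⁻¹ = F n (.inl false) h a := by
    intro a
    rw [conj_F]
    have h2 : ((tr n h : X n) : W n).right * 1 = h := mul_one h
    have h3 : ((tr n h : X n) : W n).left (.inl false) (((tr n h : X n) : W n).right * 1) = 1 := rfl
    rw [h3, cj_one, h2]
  apply le_antisymm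
  · rintro _ ⟨_, ⟨a, rfl⟩, rfl⟩
    exact ⟨a, (h1 a).symm⟩
  · rintro _ ⟨a, rfl⟩
    exact ⟨F n (.inl false) 1 a, ⟨a, rfl⟩, h1 a⟩

end Pool.Agent.Y943.NG

namespace Pool.Agent.Y943.NG

/-- `G` acts on the group by translations. -/
def trHom (G : Type) [Group G] [Fintype G] [DecidableEq G] (n : J G → ℕ) : G →* X n where
  toFun := tr n
  map_one' := rfl
  map_mul' h h' := by
    apply Subtype.ext
    ext1
    · funext j g
      simp [tr, SemidirectProduct.mul_left, act_apply]
    · simp [tr]

/-- **The group lemma.** For every finite group `G` there is a finite group `H` with a homomorphism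
`ρ : Aut H → G` and a homomorphism `s : G → H` such that the composition of `s`, `H → Inn H` and
`ρ` is the identity of `G`. -/
theorem cover' (G : Type) [Group G] [Finite G] : ∃ (H : Type) (_ : Group H) (_ : Finite H)
    (ρ : MulAut H →* G) (s : G →* H), ∀ g, ρ (MulAut.conj (s g)) = g := by
  classical
  have : Fintype G := Fintype.ofFinite G
  let e := Fintype.equivFin (J G)
  let n : J G → ℕ := fun j => 5 + (e j : ℕ)
  have hn : ∀ j, 5 ≤ n j := fun j => Nat.le_add_right _ _
  have hinj : Function.Injective n := by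
    intro j j' h
    apply e.injective
    apply Fin.ext
    simpa [n] using h
  have : Finite (W n) := Finite.of_equiv _ (SemidirectProduct.equivProd (φ := act n)).symm
  exact ⟨X n, inferInstance, inferInstance, rho hn hinj, trHom G n, fun h => rho_conj hn hinj h⟩

/-- For every finite group `G` there is a finite group `H` with a homomorphism
`Aut H → G` whose composition with `H → Inn H` is onto `G`. -/
theorem cover (G : Type) [Group G] [Finite G] : ∃ (H : Type) (_ : Group H) (_ : Finite H)
    (ρ : MulAut H →* G), Function.Surjective (ρ.comp (MulAut.conj : H →* MulAut H)) := by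
  classical
  have : Fintype G := Fintype.ofFinite G
  let e := Fintype.equivFin (J G)
  let n : J G → ℕ := fun j => 5 + (e j : ℕ)
  have hn : ∀ j, 5 ≤ n j := fun j => Nat.le_add_right _ _
  have hinj : Function.Injective n := by
    intro j j' h
    apply e.injective
    apply Fin.ext
    simpa [n] using h
  have : Finite (W n) := Finite.of_equiv _ (SemidirectProduct.equivProd (φ := act n)).symm
  refine ⟨X n, inferInstance, inferInstance, rho hn hinj, fun h => ⟨tr n h, ?_⟩⟩
  exact rho_conj hn hinj h

end Pool.Agent.Y943.NG
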