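import Pool.Agent.Y943.NG.Geo

/-! # Normal solutions of embedding problems -/

set_option autoImplicit false

namespace Pool.Agent.Y943.NG

open IntermediateField

/-- `γ` is an isomorphism of `Gal(M/K)` with `B` such that `σ` acts on `L` as `α (γ σ)`. -/
def Compat (K L B M : Type) [Field K] [Field L] [Field M] [Algebra K L] [Algebra K M]
    [Algebra L M] [Group B] (α : B →* (L ≃ₐ[K] L)) (γ : (M ≃ₐ[K] M) ≃* B) : Prop :=
  ∀ (σ : M ≃ₐ[K] M) (x : L), σ (algebraMap L M x) = algebraMap L M (α (γ σ) x)

/-- `γ` is an isomorphism of `Gal(M/F)` with `B` such that `σ` acts on `L` as `α (γ σ)`. -/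
def CompatOver (K L B M : Type) [Field K] [Field L] [Field M] [Algebra K L] [Algebra K M]
    [Algebra L M] [Group B] (α : B →* (L ≃ₐ[K] L)) (F : IntermediateField K M)
    (γ : (M ≃ₐ[F] M) ≃* B) : Prop :=
  ∀ (σ : M ≃ₐ[F] M) (x : L), σ (algebraMap L M x) = algebraMap L M (α (γ σ) x)

/-- The embedding problem `α : B → Gal(L/K)` has a proper solution: there are a finite Galois
extension `M` of `K` containing `L` and an isomorphism `γ` of `Gal(M/K)` with `B` such that `σ` acts
on `L` as `α (γ σ)`. -/
def ProperSol (K L B : Type) [Field K] [Field L] [Algebra K L] [Group B]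
    (α : B →* (L ≃ₐ[K] L)) : Prop :=
  ∃ (M : Type) (_ : Field M) (_ : Algebra K M) (_ : Algebra L M), IsScalarTower K L M ∧
    FiniteDimensional K M ∧ IsGalois K M ∧ ∃ γ : (M ≃ₐ[K] M) ≃* B, Compat K L B M α γ

/-- The embedding problem `α : B → Gal(L/K)` has a normal solution over some Galois extension `F` of
`K`: there are a (possibly infinite) Galois extension `M` of `K` containing `L`, a subfield `F`
of `M`, Galois over `K`, and an isomorphism `γ` of `Gal(M/F)` with `B` such that `σ` acts on `L` as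
`α (γ σ)`. -/
def NormalSol (K L B : Type) [Field K] [Field L] [Algebra K L] [Group B]
    (α : B →* (L ≃ₐ[K] L)) : Prop :=
  ∃ (M : Type) (_ : Field M) (_ : Algebra K M) (_ : Algebra L M), IsScalarTower K L M ∧
    IsGalois K M ∧ ∃ F : IntermediateField K M, IsGalois K F ∧
      ∃ γ : (M ≃ₐ[F] M) ≃* B, CompatOver K L B M α F γ

theorem finish {K L M B : Type} [Field K] [Field L] [Field M] [Algebra K L] [Algebra K M]
    [Algebra L M] [IsScalarTower K L M] [IsGalois K M] [Group B] (α : B →* (L ≃ₐ[K] L))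
    (f : (M ≃ₐ[K] M) →* B) (hf : Function.Surjective f)
    (ho : IsOpen (f.ker : Set (M ≃ₐ[K] M)))
    (hc : ∀ (σ : M ≃ₐ[K] M) (x : L), σ (algebraMap L M x) = algebraMap L M (α (f σ) x)) :
    ProperSol K L B α := by
  have hclosed : IsClosed (f.ker : Set (M ≃ₐ[K] M)) := Subgroup.isClosed_of_isOpen f.ker ho
  let C : ClosedSubgroup (M ≃ₐ[K] M) := ⟨f.ker, hclosed⟩
  have hfix : (fixedField f.ker).fixingSubgroup = f.ker :=
    InfiniteGalois.fixingSubgroup_fixedField C
  set M' : IntermediateField K M := fixedField f.ker with hM'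
  have hfin : FiniteDimensional K M' := by
    refine (InfiniteGalois.isOpen_iff_finite _).1 ?_
    rw [hfix]
    exact ho
  have hgal : IsGalois K M' := by
    refine (InfiniteGalois.normal_iff_isGalois _).1 ?_
    rw [hfix]
    exact MonoidHom.normal_ker f
  have hmem : ∀ x : L, algebraMap L M x ∈ M' := by
    intro x
    rw [hM', mem_fixedField_iff]
    intro g hg
    rw [hc g x, MonoidHom.mem_ker.1 hg, map_one]
    rfl
  let i1 : Algebra L M' := RingHom.toAlgebra ((algebraMap L M).codRestrict M' hmem)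
  have i2 : IsScalarTower K L M' := by
    refine IsScalarTower.of_algebraMap_eq fun k => Subtype.ext ?_
    show algebraMap K M k = algebraMap L M (algebraMap K L k)
    exact IsScalarTower.algebraMap_apply K L M k
  let r : (M ≃ₐ[K] M) →* (M' ≃ₐ[K] M') := AlgEquiv.restrictNormalHom M'
  have hr : Function.Surjective r := AlgEquiv.restrictNormalHom_surjective M
  have hker : r.ker = f.ker := by
    rw [← hfix]
    exact IntermediateField.restrictNormalHom_ker M'
  let γ : (M' ≃ₐ[K] M') ≃* B := (QuotientGroup.quotientKerEquivOfSurjective r hr).symm.trans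
    ((QuotientGroup.quotientMulEquivOfEq hker).trans
      (QuotientGroup.quotientKerEquivOfSurjective f hf))
  have hγ : ∀ σ, γ (r σ) = f σ := by
    intro σ
    have h1 : (QuotientGroup.quotientKerEquivOfSurjective r hr).symm (r σ) =
        (QuotientGroup.mk σ : (M ≃ₐ[K] M) ⧸ r.ker) := by
      rw [MulEquiv.symm_apply_eq]
      rfl
    show (QuotientGroup.quotientKerEquivOfSurjective f hf)
      ((QuotientGroup.quotientMulEquivOfEq hker)
        ((QuotientGroup.quotientKerEquivOfSurjective r hr).symm (r σ))) = f σ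
    rw [h1]
    rfl
  refine ⟨M', inferInstance, inferInstance, i1, i2, hfin, hgal, γ, ?_⟩
  intro σ' x
  obtain ⟨σ, rfl⟩ := hr σ'
  rw [hγ]
  apply (algebraMap M' M).injective
  have h1 : algebraMap M' M (r σ (algebraMap L M' x)) = σ (algebraMap M' M (algebraMap L M' x)) :=
    AlgEquiv.restrictNormal_commutes σ M' _
  rw [h1]
  exact hc σ x

/-- The main theorem about one embedding problem: the centre of `Gal(L/K)` is trivial. -/
theorem core {K L B H : Type} [Field K] [Field L] [Algebra K L] [IsGalois K L]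
    [Group B] [Group H] [Finite H] (α : B →* (L ≃ₐ[K] L)) (hα : Function.Surjective α)
    (hZ : ∀ g : L ≃ₐ[K] L, (∀ h, g * h = h * g) → g = 1)
    (ρ : MulAut H →* B) (hρ : Function.Surjective (ρ.comp (MulAut.conj : H →* MulAut H)))
    (hN : NormalSol K L H (α.comp (ρ.comp MulAut.conj))) : ProperSol K L B α := by
  obtain ⟨M, _, _, _, _, _, F, hF, e, he⟩ := hN
  haveI hNn : F.fixingSubgroup.Normal := (InfiniteGalois.normal_iff_isGalois F).2 hF
  let eN : F.fixingSubgroup ≃* H := (IntermediateField.fixingSubgroupEquiv F).trans e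
  haveI : Finite F.fixingSubgroup := Finite.of_equiv H eN.symm.toEquiv
  let c : (M ≃ₐ[K] M) →* MulAut F.fixingSubgroup := MulAut.conjNormal
  let f : (M ≃ₐ[K] M) →* B := (ρ.comp (MulAut.congr eN).toMonoidHom).comp c
  have hfN : ∀ n : F.fixingSubgroup, f n = ρ (MulAut.conj (eN n)) := by
    intro n
    change ρ (MulAut.congr eN (MulAut.conjNormal (n : M ≃ₐ[K] M))) = _
    congr 1
    rw [MulAut.conjNormal_val]
    ext h
    simp [MulAut.congr, MulAut.conj_apply]
  have hs : ∀ g : B, ∃ n : F.fixingSubgroup, f n = g := by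
    intro g
    obtain ⟨h, hh⟩ := hρ g
    refine ⟨eN.symm h, ?_⟩
    rw [hfN, MulEquiv.apply_symm_apply]
    exact hh
  have hsurj : Function.Surjective f := fun g => by
    obtain ⟨n, hn⟩ := hs g
    exact ⟨n, hn⟩
  have hopen : IsOpen (f.ker : Set (M ≃ₐ[K] M)) := by
    have h1 : IsOpen (c.ker : Set (M ≃ₐ[K] M)) := Pool.Agent.Y804.NG.open_ker F.fixingSubgroup
    refine Subgroup.isOpen_mono (H₁ := c.ker) (H₂ := f.ker) ?_ h1
    intro g hg
    rw [MonoidHom.mem_ker] at hg ⊢
    change ρ (MulAut.congr eN (c g)) = 1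
    rw [hg, map_one, map_one]
  -- the restriction to `L`
  let res : (M ≃ₐ[K] M) →* (L ≃ₐ[K] L) := AlgEquiv.restrictNormalHom L
  have hres : ∀ (σ : M ≃ₐ[K] M) (x : L), algebraMap L M (res σ x) = σ (algebraMap L M x) :=
    fun σ x => AlgEquiv.restrictNormal_commutes σ L x
  have hresN : ∀ n : F.fixingSubgroup, res n = α (f n) := by
    intro n
    refine AlgEquiv.ext fun x => (algebraMap L M).injective ?_
    rw [hres, hfN]
    exact he (IntermediateField.fixingSubgroupEquiv F n) x
  have hall : ∀ g, α (f g) = res g := by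
    intro g
    have h1 : (res g)⁻¹ * α (f g) = 1 := by
      apply hZ
      intro h
      obtain ⟨b, rfl⟩ := hα h
      obtain ⟨n, rfl⟩ := hs b
      have h2 := hresN ⟨g * n * g⁻¹, hNn.conj_mem n n.2 g⟩
      simp only [map_mul, map_inv] at h2
      rw [hresN n] at h2
      -- `res g * α (f n) * (res g)⁻¹ = α (f g) * α (f n) * (α (f g))⁻¹`
      have h3 : α (f n) * ((res g)⁻¹ * α (f g)) = (res g)⁻¹ * α (f g) * α (f n) := by
        have h4 := congrArg (fun z => (res g)⁻¹ * z * α (f g)) h2
        simp only [mul_assoc, inv_mul_cancel, mul_one, inv_mul_cancel_left] at h4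
        rw [mul_assoc]
        exact h4
      exact h3.symm
    rw [inv_mul_eq_one] at h1
    exact h1.symm
  refine finish α f hsurj hopen fun σ x => ?_
  rw [hall, hres]

end Pool.Agent.Y943.NG
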