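import Pool.Agent.Y943.NG.Cov3
import Pool.Agent.Y804.NG.Desc
import Pool.Agent.Y26.NG.Const

/-! # Normal subgroups of Galois groups and geometric Galois groups -/

set_option autoImplicit false

namespace Pool.Agent.Y943.NG

open IntermediateField

/-- `G` occurs over `K`: it is the Galois group of a finite Galois extension of `K`. -/
def Occurs (K G : Type) [Field K] [Group G] : Prop :=
  ∃ (L : Type) (_ : Field L) (_ : Algebra K L),
    FiniteDimensional K L ∧ IsGalois K L ∧ Nonempty ((L ≃ₐ[K] L) ≃* G)

/-- `G` is isomorphic to `Gal(L/F)` for Galois extensions `L ⊇ F` of `K`. -/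
def OccursNormally (K G : Type) [Field K] [Group G] : Prop :=
  ∃ (L : Type) (_ : Field L) (_ : Algebra K L) (_ : IsGalois K L) (F : IntermediateField K L),
    IsGalois K F ∧ Nonempty ((L ≃ₐ[F] L) ≃* G)

/-- `G` occurs regularly over `k`: it is the Galois group of a finite Galois extension of `k(t)` in
which `k` is algebraically closed. -/
def OccursRegularly (k G : Type) [Field k] [Group G] : Prop :=
  ∃ (F : Type) (_ : Field F) (_ : Algebra (RatFunc k) F) (_ : Algebra k F)
    (_ : IsScalarTower k (RatFunc k) F) (_ : FiniteDimensional (RatFunc k) F)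
    (_ : IsGalois (RatFunc k) F),
    Nonempty ((F ≃ₐ[RatFunc k] F) ≃* G) ∧
    ∀ y : F, IsAlgebraic k y → y ∈ Set.range (algebraMap k F)

/-- `G` is the geometric Galois group `Gal(L/k'(t))` of a (possibly infinite) Galois extension `L`
of `k(t)`, where `k'` is the algebraic closure of `k` in `L`. -/
def OccursGeometrically (k G : Type) [Field k] [Group G] : Prop :=
  ∃ (L : Type) (_ : Field L) (_ : Algebra (RatFunc k) L) (_ : Algebra k L)
    (_ : IsScalarTower k (RatFunc k) L) (_ : IsGalois (RatFunc k) L),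
    Nonempty ((L ≃ₐ[IntermediateField.adjoin (RatFunc k) {y : L | IsAlgebraic k y}] L) ≃* G)

/-- The Galois group over the bottom field. -/
noncomputable def botEquiv {K L : Type} [Field K] [Field L] [Algebra K L]
    (F : IntermediateField K L) (h : F = ⊥) : (L ≃ₐ[F] L) ≃* (L ≃ₐ[K] L) :=
  (IntermediateField.fixingSubgroupEquiv F).symm.trans
    ((MulEquiv.subgroupCongr (by rw [h, IntermediateField.fixingSubgroup_bot])).trans
      Subgroup.topEquiv)

theorem occursNormally_of_occurs {K G : Type} [Field K] [Group G] (h : Occurs K G) :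
    OccursNormally K G := by
  obtain ⟨L, i1, i2, _, h2, ⟨e⟩⟩ := h
  exact ⟨L, i1, i2, h2, ⊥, inferInstance, ⟨(botEquiv ⊥ rfl).trans e⟩⟩

theorem geometrically_of_regularly {k G : Type} [Field k] [Group G] (h : OccursRegularly k G) :
    OccursGeometrically k G := by
  obtain ⟨L, i1, i2, i3, i4, _, h2, ⟨e⟩, h3⟩ := h
  refine ⟨L, i1, i2, i3, i4, h2, ⟨(botEquiv _ ?_).trans e⟩⟩
  rw [eq_bot_iff, IntermediateField.adjoin_le_iff]
  intro y hy
  obtain ⟨c, rfl⟩ := h3 y hy
  rw [IsScalarTower.algebraMap_apply k (RatFunc k) L]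
  exact IntermediateField.algebraMap_mem _ _

/-- The main theorem about one group. -/
theorem one' (G : Type) [Group G] [Finite G] : ∃ (H : Type) (_ : Group H) (_ : Finite H)
    (ρ : MulAut H →* G) (s : G →* H), (∀ g, ρ (MulAut.conj (s g)) = g) ∧
    (∀ (K : Type) [Field K], OccursNormally K H → Occurs K G) ∧
    (∀ (k : Type) [Field k], OccursGeometrically k H → OccursRegularly k G) := by
  obtain ⟨H, i1, i2, ρ, s, hs⟩ := cover' G
  have hρ : Function.Surjective (ρ.comp (MulAut.conj : H →* MulAut H)) := fun g => ⟨s g, hs g⟩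
  refine ⟨H, i1, i2, ρ, s, hs, ?_, ?_⟩
  · rintro K _ ⟨L, _, _, _, F, hF, e⟩
    obtain ⟨M, h1, h2, h3, _⟩ := Pool.Agent.Y804.NG.desc K L G H ρ hρ F hF e
    exact ⟨M, inferInstance, inferInstance, h1, h2, h3⟩
  · rintro k _ ⟨L, _, _, _, _, _, e⟩
    obtain ⟨M, h1, h2, h3, h4⟩ := Pool.Agent.Y804.NG.desc (RatFunc k) L G H ρ hρ _
      (Pool.Agent.Y26.NG.const k L) e
    have hst : IsScalarTower k M L := IsScalarTower.of_algebraMap_eq fun x => rfl
    refine ⟨M, inferInstance, inferInstance, inferInstance, inferInstance, h1, h2, h3, ?_⟩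
    intro y hy
    have hy' : IsAlgebraic k (y : L) := by
      have h5 : IsAlgebraic k (algebraMap M L y) :=
        (isAlgebraic_algebraMap_iff (algebraMap M L).injective).2 hy
      exact h5
    have h6 : (y : L) ∈ (⊥ : IntermediateField (RatFunc k) L) := by
      rw [← h4]
      exact ⟨y.2, IntermediateField.subset_adjoin _ _ hy'⟩
    obtain ⟨r, hr⟩ := IntermediateField.mem_bot.1 h6
    have h7 : IsAlgebraic k r := by
      have h8 : IsAlgebraic k (algebraMap (RatFunc k) L r) := by rw [hr]; exact hy'
      exact (isAlgebraic_algebraMap_iff (algebraMap (RatFunc k) L).injective).1 h8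
    obtain ⟨c, rfl⟩ := Pool.Agent.Y26.NG.alg k r h7
    refine ⟨c, Subtype.ext ?_⟩
    rw [← hr, ← IsScalarTower.algebraMap_apply k (RatFunc k) L,
      IsScalarTower.algebraMap_apply k M L]
    rfl

theorem one (G : Type) [Group G] [Finite G] : ∃ (H : Type) (_ : Group H) (_ : Finite H),
    (∀ (K : Type) [Field K], OccursNormally K H → Occurs K G) ∧
    (∀ (k : Type) [Field k], OccursGeometrically k H → OccursRegularly k G) := by
  obtain ⟨H, i1, i2, _, _, _, h1, h2⟩ := one' G
  exact ⟨H, i1, i2, h1, h2⟩

/-- All groups, any base field. -/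
theorem all_field (K : Type) [Field K] :
    (∀ (G : Type) [Group G] [Finite G], Occurs K G) ↔
      ∀ (G : Type) [Group G] [Finite G], OccursNormally K G := by
  constructor
  · intro h G _ _
    exact occursNormally_of_occurs (h G)
  · intro h G _ _
    obtain ⟨H, _, _, h1, _⟩ := one G
    exact h1 K (h H)

/-- All groups, regular extensions. -/
theorem all_regular (k : Type) [Field k] :
    (∀ (G : Type) [Group G] [Finite G], OccursRegularly k G) ↔
      ∀ (G : Type) [Group G] [Finite G], OccursGeometrically k G := by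
  constructor
  · intro h G _ _
    exact geometrically_of_regularly (h G)
  · intro h G _ _
    obtain ⟨H, _, _, _, h1⟩ := one G
    exact h1 k (h H)

end Pool.Agent.Y943.NG
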