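import Pool.Agent.Y943.NG.Red
import Pool.Agent.TH444.TW.Fin

/-! # Hilbertian fields -/

set_option autoImplicit false

namespace Pool.Agent.Y943.NG

open Pool.Agent.H391R2.T4 (HilbField)

theorem abSol_of_hilb {K : Type} [Field K] (hK : HilbField K) : AbSol K := by
  intro L B _ _ _ _ _ _ α s hs hc
  have h := Pool.Agent.TH444.TW.ab_rs α s hs hc
  obtain ⟨F, j1, j2, j3, j4, j5, j6, γ, hγ⟩ := h.stepSol K hK L (MulEquiv.refl _)
  refine ⟨F, j1, j2, j3, j4, j5, j6, γ, fun σ x => ?_⟩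
  rw [hγ]
  exact (AlgEquiv.restrictNormal_commutes σ L x).symm

end Pool.Agent.Y943.NG
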