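import Pool.Agent.Y943.NG.Ep

/-! # Reduction of embedding problems to normal solutions -/

set_option autoImplicit false

namespace Pool.Agent.Y943.NG

/-- Split embedding problems with finite abelian kernel have proper solutions over `K`. -/
def AbSol (K : Type) [Field K] : Prop :=
  ∀ (L B : Type) [Field L] [Algebra K L] [FiniteDimensional K L] [IsGalois K L] [Group B]
    [Finite B] (α : B →* (L ≃ₐ[K] L)) (s : (L ≃ₐ[K] L) →* B), (∀ g, α (s g) = g) →
    (∀ x y, α x = 1 → α y = 1 → x * y = y * x) → ProperSol K L B α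

section wr

variable (Γ : Type) [Group Γ] [Finite Γ] (l : ℕ)

/-- The regular wreath product. -/
abbrev Wd : Type := (Γ → Multiplicative (ZMod l)) ⋊[mulAutArrow] Γ

/-- The subgroup of the pairs `(f, γ)` with `∏ f = 1`. -/
noncomputable def Ws : Subgroup (Wd Γ l) where
  carrier := {x | ∏ᶠ y, x.left y = 1}
  one_mem' := by simp
  mul_mem' := by
    intro x y hx hy
    have hx' : ∏ᶠ z, x.left z = 1 := hx
    have hy' : ∏ᶠ z, y.left z = 1 := hy
    show ∏ᶠ z, (x * y).left z = 1
    have h1 : ∀ z, (x * y).left z = x.left z * y.left (x.right⁻¹ * z) := fun z => rfl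
    simp only [h1]
    rw [finprod_mul_distrib (Set.toFinite _) (Set.toFinite _), hx', one_mul, ← hy']
    exact finprod_eq_of_bijective (fun z => x.right⁻¹ * z) (Group.mulLeft_bijective _)
      fun z => rfl
  inv_mem' := by
    intro x hx
    have hx' : ∏ᶠ z, x.left z = 1 := hx
    show ∏ᶠ z, (x⁻¹).left z = 1
    have h1 : ∀ z, (x⁻¹).left z = (x.left (x.right * z))⁻¹ := by
      intro z
      rw [SemidirectProduct.inv_left]
      show (x.left ((x.right⁻¹)⁻¹ * z))⁻¹ = _
      rw [inv_inv]
    simp only [h1]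
    rw [finprod_inv_distrib, inv_eq_one, ← hx']
    exact finprod_eq_of_bijective (fun z => x.right * z) (Group.mulLeft_bijective _)
      fun z => rfl

instance [NeZero l] : Finite (Wd Γ l) :=
  have : Finite (Multiplicative (ZMod l)) := Finite.of_equiv (ZMod l) Multiplicative.ofAdd
  Finite.of_equiv ((Γ → Multiplicative (ZMod l)) × Γ)
    (SemidirectProduct.equivProd (N := Γ → Multiplicative (ZMod l)) (G := Γ)
      (φ := mulAutArrow)).symm

/-- The projection. -/
noncomputable def wp : Ws Γ l →* Γ := SemidirectProduct.rightHom.comp (Ws Γ l).subtype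

/-- The section. -/
noncomputable def wsec : Γ →* Ws Γ l where
  toFun g := ⟨SemidirectProduct.inr g, by
    show ∏ᶠ y, (SemidirectProduct.inr g : Wd Γ l).left y = 1
    simp⟩
  map_one' := by
    apply Subtype.ext
    simp
  map_mul' g h := by
    apply Subtype.ext
    simp

theorem wp_wsec (g : Γ) : wp Γ l (wsec Γ l g) = g := rfl

theorem w_comm (x y : Ws Γ l) (hx : wp Γ l x = 1) (hy : wp Γ l y = 1) : x * y = y * x := by
  have hx' : (x : Wd Γ l).right = 1 := hx
  have hy' : (y : Wd Γ l).right = 1 := hy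
  apply Subtype.ext
  rw [Subgroup.coe_mul, Subgroup.coe_mul]
  ext1
  · rw [SemidirectProduct.mul_left, SemidirectProduct.mul_left, hx', hy', map_one, MulAut.one_apply,
      MulAut.one_apply, mul_comm]
  · rw [SemidirectProduct.mul_right, SemidirectProduct.mul_right, hx', hy']

theorem w_center (hl : l.Prime) (h2 : 2 < l) (hc : Nat.card Γ < l) (w : Ws Γ l)
    (hw : ∀ u, w * u = u * w) : w = 1 := by
  classical
  have : Fact l.Prime := ⟨hl⟩
  have hr : (w : Wd Γ l).right = 1 := by
    by_contra hne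
    set γ := (w : Wd Γ l).right with hγ
    let b : Γ → Multiplicative (ZMod l) := fun y =>
      if y = 1 then Multiplicative.ofAdd 1 else if y = γ then Multiplicative.ofAdd (-1) else 1
    have hb : ∏ᶠ y, b y = 1 := by
      have hb1 : b = fun y => (if y = 1 then Multiplicative.ofAdd (1 : ZMod l) else 1) *
          (if y = γ then Multiplicative.ofAdd (-1 : ZMod l) else 1) := by
        funext y
        simp only [b]
        by_cases h1 : y = 1
        · have h3 : y ≠ γ := fun h => hne (by rw [← h, h1])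
          simp [h1, Ne.symm hne]
        · simp [h1]
      rw [hb1, finprod_mul_distrib (Set.toFinite _) (Set.toFinite _)]
      rw [finprod_eq_single _ 1 (fun y hy => if_neg hy), finprod_eq_single _ γ
        (fun y hy => if_neg hy)]
      simp
    have h1 := hw ⟨SemidirectProduct.inl b, by
      show ∏ᶠ y, (SemidirectProduct.inl b : Wd Γ l).left y = 1
      simpa using hb⟩
    have h3 := congrArg (fun z : Ws Γ l => (z : Wd Γ l).left γ) h1
    simp only [Subgroup.coe_mul, SemidirectProduct.mul_left, SemidirectProduct.left_inl,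
      SemidirectProduct.right_inl, map_one, MulAut.one_apply, Pi.mul_apply] at h3
    have h4 : (mulAutArrow (w : Wd Γ l).right b : Γ → Multiplicative (ZMod l)) γ = b 1 := by
      show b ((w : Wd Γ l).right⁻¹ * γ) = b 1
      rw [← hγ, inv_mul_cancel]
    rw [h4, mul_comm] at h3
    have h5 : b 1 = b γ := mul_right_cancel h3
    simp only [b, if_true, if_neg hne] at h5
    have h6 : (1 : ZMod l) = -1 := Multiplicative.ofAdd.injective h5
    have h7 : ((2 : ℕ) : ZMod l) = 0 := by
      have : (1 : ZMod l) + 1 = 0 := by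
        nth_rewrite 1 [h6]
        ring
      rw [← this]
      norm_num
    rw [ZMod.natCast_eq_zero_iff] at h7
    exact absurd (Nat.le_of_dvd (by norm_num) h7) (by omega)
  have hl1 : ∀ h y, (w : Wd Γ l).left (h⁻¹ * y) = (w : Wd Γ l).left y := by
    intro h y
    have h1 := hw (wsec Γ l h)
    have h3 := congrArg (fun z : Ws Γ l => (z : Wd Γ l).left y) h1
    have h4 : ((wsec Γ l h : Ws Γ l) : Wd Γ l) = SemidirectProduct.inr h := rfl
    simp only [Subgroup.coe_mul, SemidirectProduct.mul_left, h4, SemidirectProduct.left_inr,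
      SemidirectProduct.right_inr, map_one, Pi.mul_apply, Pi.one_apply, mul_one, one_mul] at h3
    exact h3.symm
  have hcst : ∀ y, (w : Wd Γ l).left y = (w : Wd Γ l).left 1 := by
    intro y
    have h1 := hl1 y y
    rw [inv_mul_cancel] at h1
    exact h1.symm
  have hprod : ∏ᶠ y, (w : Wd Γ l).left y = 1 := w.2
  have hone : (w : Wd Γ l).left 1 = 1 := by
    have : Fintype Γ := Fintype.ofFinite Γ
    simp only [hcst] at hprod
    rw [finprod_eq_prod_of_fintype, Finset.prod_const, Finset.card_univ] at hprod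
    have h3 : ((Fintype.card Γ : ℕ) : ZMod l) * Multiplicative.toAdd ((w : Wd Γ l).left 1) = 0 := by
      have h4 := congrArg Multiplicative.toAdd hprod
      rw [toAdd_pow, toAdd_one, nsmul_eq_mul] at h4
      exact h4
    rcases mul_eq_zero.1 h3 with h5 | h5
    · rw [ZMod.natCast_eq_zero_iff] at h5
      have h6 : 0 < Fintype.card Γ := Fintype.card_pos
      rw [Nat.card_eq_fintype_card] at hc
      exact absurd (Nat.le_of_dvd h6 h5) (by omega)
    · exact Multiplicative.toAdd.injective h5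
  apply Subtype.ext
  ext1
  · funext y
    rw [hcst, hone]
    rfl
  · exact hr

end wr

/-- Reduction of an embedding problem to a normal solution of another one. -/
theorem reduce {K : Type} [Field K] (hab : AbSol K) (L B : Type) [Field L] [Algebra K L]
    [FiniteDimensional K L] [IsGalois K L] [Group B] [Finite B] (α : B →* (L ≃ₐ[K] L))
    (hα : Function.Surjective α) :
    ∃ (L' H : Type) (_ : Field L') (_ : Algebra K L') (_ : FiniteDimensional K L')
      (_ : IsGalois K L') (_ : Group H) (_ : Finite H) (α' : H →* (L' ≃ₐ[K] L')),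
      Function.Surjective α' ∧
      ((∃ s : (L ≃ₐ[K] L) →* B, ∀ g, α (s g) = g) →
        ∃ s' : (L' ≃ₐ[K] L') →* H, ∀ g, α' (s' g) = g) ∧
      (NormalSol K L' H α' → ProperSol K L B α) := by
  obtain ⟨l, hl1, hl⟩ := Nat.exists_infinite_primes (max 3 (Nat.card (L ≃ₐ[K] L) + 1))
  have h3 : 2 < l := lt_of_lt_of_le (by norm_num) ((le_max_left _ _).trans hl1)
  have h4 : Nat.card (L ≃ₐ[K] L) < l :=
    lt_of_lt_of_le (Nat.lt_succ_self _) ((le_max_right _ _).trans hl1)
  have : NeZero l := ⟨hl.ne_zero⟩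
  have hΓ : Finite (L ≃ₐ[K] L) := inferInstance
  obtain ⟨L', i1, i2, i3, i4, i5, i6, e, he⟩ := hab L (Ws (L ≃ₐ[K] L) l) (wp (L ≃ₐ[K] L) l)
    (wsec (L ≃ₐ[K] L) l) (wp_wsec _ l) (w_comm _ l)
  have hZ : ∀ g : L' ≃ₐ[K] L', (∀ h, g * h = h * g) → g = 1 := by
    intro g hg
    apply e.injective
    rw [map_one]
    apply w_center (L ≃ₐ[K] L) l hl h3 h4
    intro u
    obtain ⟨v, rfl⟩ := e.surjective u
    rw [← map_mul, ← map_mul, hg]
  let res : (L' ≃ₐ[K] L') →* (L ≃ₐ[K] L) := (wp (L ≃ₐ[K] L) l).comp e.toMonoidHom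
  have hres : Function.Surjective res := by
    intro g
    obtain ⟨v, hv⟩ := e.surjective (wsec (L ≃ₐ[K] L) l g)
    refine ⟨v, ?_⟩
    show wp (L ≃ₐ[K] L) l (e v) = g
    rw [hv]
    exact wp_wsec _ l g
  let B₁ : Subgroup (B × (L' ≃ₐ[K] L')) := (α.comp (MonoidHom.fst _ _)).eqLocus
    (res.comp (MonoidHom.snd _ _))
  have hB₁ : ∀ x : B × (L' ≃ₐ[K] L'), x ∈ B₁ ↔ α x.1 = res x.2 := fun x => Iff.rfl
  let α₁ : B₁ →* (L' ≃ₐ[K] L') := (MonoidHom.snd _ _).comp B₁.subtype
  have hα₁ : Function.Surjective α₁ := by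
    intro g
    obtain ⟨b, hb⟩ := hα (res g)
    exact ⟨⟨(b, g), hb⟩, rfl⟩
  have hΓ' : Finite (L' ≃ₐ[K] L') := inferInstance
  obtain ⟨H, j1, j2, ρ, sH, hsH⟩ := cover' B₁
  have hρ : Function.Surjective (ρ.comp (MulAut.conj : H →* MulAut H)) :=
    fun g => ⟨sH g, hsH g⟩
  refine ⟨L', H, i1, i2, i5, i6, j1, j2, α₁.comp (ρ.comp MulAut.conj), hα₁.comp hρ, ?_, ?_⟩
  · rintro ⟨s, hs⟩
    let s₁ : (L' ≃ₐ[K] L') →* B₁ :=
      { toFun := fun g => ⟨(s (res g), g), by rw [hB₁]; exact hs _⟩
        map_one' := by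
          apply Subtype.ext
          simp
        map_mul' := fun g h => by
          apply Subtype.ext
          simp }
    refine ⟨sH.comp s₁, fun g => ?_⟩
    show α₁ (ρ (MulAut.conj (sH (s₁ g)))) = g
    rw [hsH]
    rfl
  · intro hN
    obtain ⟨M, k1, k2, k3, k4, k5, k6, γ, hγ⟩ := core α₁ hα₁ hZ ρ hρ hN
    let aLM : Algebra L M := ((algebraMap L' M).comp (algebraMap L L')).toAlgebra
    have t1 : ∀ x : L, algebraMap L M x = algebraMap L' M (algebraMap L L' x) := fun x => rfl
    have t2 : IsScalarTower K L M := by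
      refine IsScalarTower.of_algebraMap_eq fun k => ?_
      rw [t1, ← IsScalarTower.algebraMap_apply K L L', ← IsScalarTower.algebraMap_apply K L' M]
    let f : (M ≃ₐ[K] M) →* B := (MonoidHom.fst _ _).comp (B₁.subtype.comp γ.toMonoidHom)
    have hf : Function.Surjective f := by
      intro b
      obtain ⟨g, hg⟩ := hres (α b)
      obtain ⟨σ, hσ⟩ := γ.surjective ⟨(b, g), hg.symm⟩
      refine ⟨σ, ?_⟩
      show ((γ σ : B₁) : B × (L' ≃ₐ[K] L')).1 = b
      rw [hσ]
    have ho : IsOpen (f.ker : Set (M ≃ₐ[K] M)) := by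
      have : DiscreteTopology (M ≃ₐ[K] M) := krullTopology_discreteTopology_of_finiteDimensional K M
      exact isOpen_discrete _
    refine finish α f hf ho fun σ x => ?_
    rw [t1, t1, hγ]
    have h5 : α (f σ) = res (α₁ (γ σ)) := (γ σ).2
    have h6 : α₁ (γ σ) (algebraMap L L' x) = algebraMap L L' (α (f σ) x) := by
      rw [h5, he]
      rfl
    rw [h6]

theorem botEquiv_apply {K L : Type} [Field K] [Field L] [Algebra K L] (F : IntermediateField K L)
    (h : F = ⊥) (σ : L ≃ₐ[F] L) (x : L) : botEquiv F h σ x = σ x := by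
  obtain ⟨τ, rfl⟩ := (IntermediateField.fixingSubgroupEquiv F).surjective σ
  have h1 : botEquiv F h (IntermediateField.fixingSubgroupEquiv F τ) = τ := by
    unfold botEquiv
    simp only [MulEquiv.trans_apply, MulEquiv.symm_apply_apply]
    rfl
  rw [h1]
  rfl

theorem NormalSol.of_proper {K L B : Type} [Field K] [Field L] [Algebra K L] [Group B]
    {α : B →* (L ≃ₐ[K] L)} (h : ProperSol K L B α) : NormalSol K L B α := by
  obtain ⟨M, k1, k2, k3, k4, _, k6, γ, hγ⟩ := h
  refine ⟨M, k1, k2, k3, k4, k6, ⊥, inferInstance, (botEquiv ⊥ rfl).trans γ, fun σ x => ?_⟩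
  rw [← botEquiv_apply ⊥ rfl σ]
  exact hγ _ x

/-- All finite embedding problems. -/
theorem ep_all {K : Type} [Field K] (hab : AbSol K) :
    (∀ (L B : Type) [Field L] [Algebra K L] [FiniteDimensional K L] [IsGalois K L] [Group B]
      [Finite B] (α : B →* (L ≃ₐ[K] L)), Function.Surjective α → ProperSol K L B α) ↔
    ∀ (L B : Type) [Field L] [Algebra K L] [FiniteDimensional K L] [IsGalois K L] [Group B]
      [Finite B] (α : B →* (L ≃ₐ[K] L)), Function.Surjective α → NormalSol K L B α := by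
  constructor
  · intro h L B _ _ _ _ _ _ α hα
    exact .of_proper (h L B α hα)
  · intro h L B _ _ _ _ _ _ α hα
    obtain ⟨L', H, _, _, _, _, _, _, α', h1, _, h2⟩ := reduce hab L B α hα
    exact h2 (h L' H α' h1)

/-- Split finite embedding problems. -/
theorem ep_split {K : Type} [Field K] (hab : AbSol K) :
    (∀ (L B : Type) [Field L] [Algebra K L] [FiniteDimensional K L] [IsGalois K L] [Group B]
      [Finite B] (α : B →* (L ≃ₐ[K] L)) (s : (L ≃ₐ[K] L) →* B), (∀ g, α (s g) = g) →
      ProperSol K L B α) ↔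
    ∀ (L B : Type) [Field L] [Algebra K L] [FiniteDimensional K L] [IsGalois K L] [Group B]
      [Finite B] (α : B →* (L ≃ₐ[K] L)) (s : (L ≃ₐ[K] L) →* B), (∀ g, α (s g) = g) →
      NormalSol K L B α := by
  constructor
  · intro h L B _ _ _ _ _ _ α s hs
    exact .of_proper (h L B α s hs)
  · intro h L B _ _ _ _ _ _ α s hs
    obtain ⟨L', H, _, _, _, _, _, _, α', _, h1, h2⟩ := reduce hab L B α fun g => ⟨s g, hs g⟩
    obtain ⟨s', hs'⟩ := h1 ⟨s, hs⟩
    exact h2 (h L' H α' s' hs')

end Pool.Agent.Y943.NG
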