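import Mathlib

/-! # Statements of project NG (helper943) -/

set_option autoImplicit false

namespace Pool.Agent.Y943.NG

/-- Job NG-DESC.  `ρ : Aut H → G` restricts to a surjection `H → G` on inner automorphisms; `L / K` is
Galois (possibly infinite), `F` is an intermediate field, Galois over `K`, with `Gal(L/F) ≃ H`.  Then `L`
contains a finite Galois extension `M` of `K` with group `G` and `M ∩ F = K`. -/
def t_DESC : Prop :=
  ∀ (K L G H : Type) [Field K] [Field L] [Algebra K L] [IsGalois K L] [Group G] [Finite G]
    [Group H] [Finite H] (ρ : MulAut H →* G),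
    Function.Surjective (ρ.comp (MulAut.conj : H →* MulAut H)) →
    ∀ F : IntermediateField K L, IsGalois K F → Nonempty ((L ≃ₐ[F] L) ≃* H) →
    ∃ M : IntermediateField K L, FiniteDimensional K M ∧ IsGalois K M ∧
      Nonempty ((M ≃ₐ[K] M) ≃* G) ∧ M ⊓ F = ⊥

/-- Job NG-CONST (1).  The field of constants: for a Galois extension `L` of `k(t)` the field
`k'(t)`, `k'` the algebraic closure of `k` in `L`, is Galois over `k(t)`. -/
def t_CONST : Prop :=
  ∀ (k L : Type) [Field k] [Field L] [Algebra (RatFunc k) L] [Algebra k L]
    [IsScalarTower k (RatFunc k) L] [IsGalois (RatFunc k) L],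
    IsGalois (RatFunc k) (IntermediateField.adjoin (RatFunc k) {y : L | IsAlgebraic k y})

/-- Job NG-CONST (2).  `k` is algebraically closed in `k(t)`. -/
def t_ALG : Prop :=
  ∀ (k : Type) [Field k] (y : RatFunc k), IsAlgebraic k y → y ∈ Set.range (algebraMap k (RatFunc k))

end Pool.Agent.Y943.NG
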